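import Pool.Agent.H683.CV.Lem

set_option autoImplicit false

namespace Pool.Agent.H409.CVCLUS

theorem key (p q : ℕ) (x : ℕ → ℕ) : ∀ n, ∀ j < p, x j = n → ∃ m ≤ x j,
    ((∃ k < p, x k = m) ∧ ∀ i < p, x i < m → x i + q < m) ∧
    (∀ v, ((∃ k < p, x k = v) ∧ ∀ i < p, x i < v → x i + q < v) → v ≤ x j → v ≤ m) ∧
    x j ≤ m + ((Finset.range p).filter fun k => x k < x j).card * q := by
  intro n
  induction n using Nat.strong_induction_on with
  | _ n ih =>
    intro j hj hx
    by_cases hh : ∀ i < p, x i < x j → x i + q < x j
    · exact ⟨x j, le_rfl, ⟨⟨j, hj, rfl⟩, hh⟩, fun v _ h => h, by omega⟩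
    · push Not at hh
      obtain ⟨i, hi, h1, h2⟩ := hh
      obtain ⟨m, hm1, hm2, hm3, hm4⟩ := ih (x i) (by omega) i hi rfl
      refine ⟨m, by omega, hm2, ?_, ?_⟩
      · intro v hv hvj
        by_contra hlt
        have : x i < v := by
          by_contra hge
          exact hlt (hm3 v hv (by omega))
        have := hv.2 i hi this
        omega
      · have hc : ((Finset.range p).filter fun k => x k < x i).card + 1 ≤
            ((Finset.range p).filter fun k => x k < x j).card := by
          apply Finset.card_lt_card
          refine ⟨?_, ?_⟩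
          · intro k hk
            simp only [Finset.mem_filter, Finset.mem_range] at hk ⊢
            exact ⟨hk.1, by omega⟩
          · intro hsub
            have : i ∈ (Finset.range p).filter fun k => x k < x i :=
              hsub (by simp only [Finset.mem_filter, Finset.mem_range]; exact ⟨hi, h1⟩)
            simp at this
        have := Nat.mul_le_mul_right q hc
        rw [Nat.add_mul] at this
        omega

theorem CLUS' : ∀ (p q : ℕ) (x : ℕ → ℕ), ∃ cl e : ℕ → ℕ, (∀ j < p, cl j < p) ∧
  (∀ j < p, e j ≤ p * q ∧ e j ≤ x j) ∧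
  (∀ i < p, ∀ j < p, cl i = cl j → x i + e j = x j + e i) ∧
  ∀ i < p, ∀ j < p, cl j < cl i → x j + q + 1 ≤ x i := by
  classical
  intro p q x
  have H : ∀ j, ∃ m, j < p → m ≤ x j ∧
    ((∃ k < p, x k = m) ∧ ∀ i < p, x i < m → x i + q < m) ∧
    (∀ v, ((∃ k < p, x k = v) ∧ ∀ i < p, x i < v → x i + q < v) → v ≤ x j → v ≤ m) ∧
    x j ≤ m + ((Finset.range p).filter fun k => x k < x j).card * q := by
    intro j
    by_cases hj : j < p
    · obtain ⟨m, h1, h2, h3, h4⟩ := key p q x (x j) j hj rfl
      exact ⟨m, fun _ => ⟨h1, h2, h3, h4⟩⟩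
    · exact ⟨0, fun h => absurd h hj⟩
  choose m hm using H
  let heads : Finset ℕ := ((Finset.range p).image x).filter fun v =>
    ∀ i < p, x i < v → x i + q < v
  have mem_heads : ∀ v, v ∈ heads ↔ ((∃ k < p, x k = v) ∧ ∀ i < p, x i < v → x i + q < v) := by
    intro v
    simp [heads]
  have hcard : heads.card ≤ p := by
    calc heads.card ≤ ((Finset.range p).image x).card := Finset.card_filter_le _ _
      _ ≤ (Finset.range p).card := Finset.card_image_le
      _ = p := Finset.card_range p
  have mono : ∀ i < p, ∀ j < p, m i < m j →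
      (heads.filter fun v => v < m i).card < (heads.filter fun v => v < m j).card := by
    intro i hi j hj hij
    apply Finset.card_lt_card
    refine ⟨?_, ?_⟩
    · intro v hv
      simp only [Finset.mem_filter] at hv ⊢
      exact ⟨hv.1, by omega⟩
    · intro hsub
      have : m i ∈ heads.filter fun v => v < m i :=
        hsub (by simp only [Finset.mem_filter]; exact ⟨(mem_heads _).2 (hm i hi).2.1, hij⟩)
      simp at this
  refine ⟨fun j => (heads.filter fun v => v < m j).card, fun j => x j - m j, ?_, ?_, ?_, ?_⟩
  · intro j hj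
    refine lt_of_lt_of_le ?_ hcard
    apply Finset.card_lt_card
    refine ⟨Finset.filter_subset _ _, ?_⟩
    intro hsub
    have := hsub ((mem_heads _).2 (hm j hj).2.1)
    simp at this
  · intro j hj
    refine ⟨?_, Nat.sub_le _ _⟩
    have h1 := (hm j hj).2.2.2
    have h2 : ((Finset.range p).filter fun k => x k < x j).card * q ≤ p * q := by
      apply Nat.mul_le_mul_right
      calc _ ≤ (Finset.range p).card := Finset.card_filter_le _ _
        _ = p := Finset.card_range p
    show x j - m j ≤ p * q
    omega
  · intro i hi j hj hij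
    have heq : m i = m j := by
      rcases lt_trichotomy (m i) (m j) with h | h | h
      · exact absurd hij (mono i hi j hj h).ne
      · exact h
      · exact absurd hij (mono j hj i hi h).ne'
    have h1 := (hm i hi).1
    have h2 := (hm j hj).1
    show x i + (x j - m j) = x j + (x i - m i)
    omega
  · intro i hi j hj hij
    have hlt : m j < m i := by
      rcases lt_trichotomy (m i) (m j) with h | h | h
      · exact absurd (mono i hi j hj h) (not_lt.2 hij.le)
      · exact absurd hij (by simp [h])
      · exact h
    have h1 := (hm i hi).1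
    have h2 := (hm i hi).2.1
    have h3 : x j < m i := by
      by_contra hge
      have := (hm j hj).2.2.1 (m i) h2 (by omega)
      omega
    have h4 := h2.2 j hj h3
    omega

theorem CLUS : Pool.Agent.H683.CV.S_CLUS := CLUS'

end Pool.Agent.H409.CVCLUS
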