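import Pool.Agent.H683.SC.PosPStm

/-!
# The list of all states is computed in polynomial time, given a pad
-/

set_option autoImplicit false

namespace Pool.Agent.NPC.H409SP

open Turing Pool.Agent.NPC Pool.Agent.H633R2 Pool.Agent.H683.MC Pool.Agent.H683.SC

/-- one step of `sts` -/
def step (kk : ℕ) (S : List (List ℕ)) : List (List ℕ) :=
  S.flatMap fun σ => (List.range (kk + 2)).map fun c => c :: σ

theorem step_iterate (kk : ℕ) : ∀ k, (step kk)^[k] [[]] = sts kk k
  | 0 => rfl
  | k + 1 => by
    rw [Function.iterate_succ_apply', step_iterate kk k]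
    rfl

theorem sts_length (kk : ℕ) : ∀ k, (sts kk k).length = (kk + 2) ^ k
  | 0 => rfl
  | k + 1 => by
    rw [sts, List.length_flatMap]
    simp only [List.length_map, List.length_range]
    rw [List.map_const', List.sum_replicate, sts_length kk k, smul_eq_mul, pow_succ]

theorem sts_sz (kk : ℕ) : ∀ k, ∀ σ ∈ sts kk k, sz σ ≤ 1 + k * (4 * kk + 10)
  | 0, σ, h => by
    simp only [sts, List.mem_singleton] at h
    subst h
    simp
  | k + 1, σ, h => by
    simp only [sts, List.mem_flatMap, List.mem_map, List.mem_range] at h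
    obtain ⟨τ, hτ, c, hc, rfl⟩ := h
    have h1 := sts_sz kk k τ hτ
    have h2 := sz_nat_le c
    have h3 := Poly.size_le_self c
    rw [sz_list_cons]
    have : (k + 1) * (4 * kk + 10) = k * (4 * kk + 10) + (4 * kk + 10) := by ring
    omega

theorem sz_list_bound {β : Type} [TEnc β] (B : ℕ) : ∀ l : List β, (∀ b ∈ l, sz b ≤ B) →
    sz l ≤ 1 + l.length * (B + 1)
  | [], _ => by simp
  | b :: l, h => by
    have h1 := sz_list_bound B l (fun x hx => h x (List.mem_cons_of_mem _ hx))
    have h2 := h b List.mem_cons_self
    rw [sz_list_cons, List.length_cons]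
    have : (l.length + 1) * (B + 1) = l.length * (B + 1) + (B + 1) := by ring
    omega

theorem PSTS : S_PSTS := by
  intro α _ kk w hkk hw hle
  obtain ⟨r, hr⟩ := hw.sz_le
  obtain ⟨t, ht⟩ := Poly.sz_le hkk
  have hstep : Poly (fun p : α × List (List ℕ) => step (kk p.1) p.2) := by
    refine Poly.flatMap (l := fun p : α × List (List ℕ) => p.2)
      (F := fun p σ => (List.range (kk p.1 + 2)).map fun c => c :: σ) (Poly.snd Poly.id) ?_
    refine Poly.map (l := fun x : (α × List (List ℕ)) × List ℕ => List.range (kk x.1.1 + 2))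
      (F := fun x c => c :: x.2) ?_ ?_
    · exact UPoly.range ((hkk.add (UPoly.const 2)).comp (Poly.fst (Poly.fst Poly.id)))
    · exact Poly.cons (Poly.snd Poly.id) (Poly.snd (Poly.fst Poly.id))
  refine (Poly.iterLen (l := fun a => List.replicate (kk a) ()) (s := fun _ => [[]])
    (F := fun a S => step (kk a) S) hkk (Poly.const _) hstep
    (Polynomial.C 1 + r * (Polynomial.C 2 + t * (Polynomial.C 4 * t + Polynomial.C 10))) ?_).congr
      fun a => ?_
  · intro a k hk
    rw [List.length_replicate] at hk
    rw [show (fun S => step (kk a) S) = step (kk a) from rfl, step_iterate]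
    have h1 := sz_list_bound (1 + k * (4 * kk a + 10)) (sts (kk a) k) (sts_sz (kk a) k)
    rw [sts_length] at h1
    have h2 : (kk a + 2) ^ k ≤ (w a).length :=
      (Nat.pow_le_pow_right (by omega) hk).trans (hle a)
    have h3 : (w a).length ≤ r.eval (sz a) := (length_lt_sz (w a)).le.trans (hr a)
    have h4 : kk a ≤ t.eval (sz a) := by
      have := ht a
      have h5 := length_lt_sz (List.replicate (kk a) ())
      rw [List.length_replicate] at h5
      omega
    simp only [Polynomial.eval_add, Polynomial.eval_mul, Polynomial.eval_C]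
    have h6 : 1 + k * (4 * kk a + 10) + 1 ≤
        2 + t.eval (sz a) * (4 * t.eval (sz a) + 10) := by
      have := Nat.mul_le_mul (hk.trans h4) (show 4 * kk a + 10 ≤ 4 * t.eval (sz a) + 10 by omega)
      omega
    have h7 := Nat.mul_le_mul (h2.trans h3) h6
    omega
  · rw [show (fun S => step (kk a) S) = step (kk a) from rfl, step_iterate,
      List.length_replicate]

end Pool.Agent.NPC.H409SP
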